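import Pool.Agent.TH145.GF.Main
import Pool.Agent.TH145.GE.CurveLin

/-!
MP_dc0411_ag, Q1: all subvarieties of generic log complete intersections in an arbitrary projective
variety are of log general type (condition 2), and the degrees of the curves in them are bounded
(which gives condition 3 in the projective case, by a known implication).

Let `K` be an algebraically closed field of characteristic `0`, and let `k` be a field contained in
`K`, with algebraic closure `k'` in `K`. Let `V` be a closed subset of projective space of dimension
`n`, defined over `k'`, of dimension at most `m`. For `a` in a finite set `A`, let `F_a` be a generic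
member of a linear system over `k'` of forms of degree `d_a`, spanned by the forms `P_{a,j}`: the
ratios of the coefficients `t_{a,j}` of `F_a` to one of them are, for all `a` together,
algebraically independent over `k`. Suppose that each of the linear systems contains the monomials
`x_c ^ (d_a - e) x_i ^ e` for all `c`, `i` and `e`.

Let `C` be a subset of `A`, let `U` be the set of the points of `V` with `F_a = 0` for all `a` in
`C` and `F_a ≠ 0` for all `a` not in `C`, and suppose that `2 m + 1 ≤ ∑ d_a + |C|`. Then:

* every subvariety of `U` of positive dimension is of log general type;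
* if `f` is a non-constant morphism from a smooth projective curve of genus `g` over `K` to `V`,
  with `F_a (f) = 0` for `a` in `C` and `F_a (f) ≠ 0` for `a` not in `C`, then
  `(∑ d_a + |C| - 2 m) deg f ≤ 2 g - 2 + |S|`, where `S` contains the points that are mapped to
  `F_a = 0` for some `a` not in `C`.

In the first part, `L` is the function field of the subvariety, or a finite extension of it, and `x`
is its generic point, in homogeneous coordinates. A prime divisor `Q` over the closure of the
subvariety has its centre outside `U` if `d_a min_i ord_Q (x_i) < ord_Q (F_a (x))` for some `a` not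
in `C`. In the second part, the curve is given by its function field `L`, of transcendence degree one
over `K`, and `x` are homogeneous coordinates of the morphism. For a point `Q` of the curve,
`pord Q x` is the minimum of the orders at `Q` of the nonzero coordinates; `pht K x` is minus the sum
of these numbers, the degree of `f`. The number `canDeg K L` is `2 g - 2`: it is minus the sum over
the points `Q` of the orders of `δ (t_Q)`, where `t_Q` is a uniformizer at `Q`, for any nonzero
derivation `δ` of `L` over `K`.
-/

set_option autoImplicit false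

namespace Pool.Agent.Results.MP_dc0411_ag.GenericPairs

open MvPolynomial FF Pool.Agent.W602.GT Pool.Agent.W603.LV Pool.Agent.W603.PV Pool.Agent.TH145.MG

theorem result {k K : Type} [Field k] [Field K] [IsAlgClosed K] [CharZero K] [Algebra k K]
    {n m : ℕ}
    -- a closed subset of projective space, of dimension at most `m`
    (V : Set (MvPolynomial (Fin (n + 1)) (algebraicClosure k K)))
    (hVh : ∀ f ∈ V, ∃ e, f.IsHomogeneous e) (hV : DimLE (algebraicClosure k K) V m)
    -- linear systems of forms of degrees `d a`
    {A : Type} [Fintype A] (d : A → ℕ) {J : A → Type} [∀ a, Fintype (J a)]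
    (P : ∀ a, J a → MvPolynomial (Fin (n + 1)) (algebraicClosure k K))
    (hP : ∀ a j, (P a j).IsHomogeneous (d a))
    -- the coefficients; their ratios are algebraically independent over `k`
    (t : ∀ a, J a → K) (j0 : ∀ a, J a) (h0 : ∀ a, t a (j0 a) ≠ 0)
    (hgen : AlgebraicIndependent k fun p : (a : A) × {j : J a // j ≠ j0 a} =>
      t p.1 p.2.1 / t p.1 (j0 p.1))
    -- the forms
    (F : A → MvPolynomial (Fin (n + 1)) K)
    (hF : ∀ a, F a = ∑ j, MvPolynomial.C (t a j) * map (algebraMap (algebraicClosure k K) K) (P a j))
    -- the linear systems contain the monomials in two variables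
    (hZ : ∀ (c : Fin (n + 1)) (a : A) (i : Fin (n + 1)) (e : ℕ), e ≤ d a →
      ∃ j, P a j = X c ^ (d a - e) * X i ^ e)
    -- `U` is given by `F a = 0` for `a ∈ C` and `F a ≠ 0` for `a ∉ C`
    (C : Finset A) (hd : 2 * m + 1 ≤ ∑ a, d a + C.card) :
    -- all subvarieties of positive dimension are of log general type
    (∀ (L : Type) [Field L] [Algebra K L] (w : ℕ) (x : Fin (n + 1) → L), 0 < w →
      Algebra.trdeg K L = w → x ≠ 0 → Algebra.IsAlgebraic (coords K x) L →
      (∀ f ∈ V, aeval x (map (algebraMap (algebraicClosure k K) K) f) = 0) →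
      (∀ a ∈ C, aeval x (F a) = 0) → (∀ a, a ∉ C → aeval x (F a) ≠ 0) →
      LogGeneralType K L w fun Q : Place K L =>
        ∃ a, a ∉ C ∧ d a * pord Q x < Q.ord (aeval x (F a))) ∧
    -- the degrees of curves; the points mapped to a hypersurface `F a = 0` with `a ∉ C` are in `S`
    (∀ (L : Type) [Field L] [Algebra K L] [IsFF K L] (x : Fin (n + 1) → L),
      (∃ i j, x j ≠ 0 ∧ x i / x j ∉ Set.range (algebraMap K L)) →
      (∀ f ∈ V, aeval x (map (algebraMap (algebraicClosure k K) K) f) = 0) →
      (∀ a ∈ C, aeval x (F a) = 0) → (∀ a, a ∉ C → aeval x (F a) ≠ 0) →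
      ∀ S : Finset (Place K L),
      (∀ Q : Place K L, ∀ a, a ∉ C → d a * pord Q x < Q.ord (aeval x (F a)) → Q ∈ S) →
      (∀ δ : Derivation K L L, δ ≠ 0 → canDeg K L = - ∑ᶠ Q : Place K L, Q.ord (δ Q.surj.choose)) ∧
      (((∑ a, d a : ℕ) : ℤ) + C.card - 2 * m) * pht K x ≤ canDeg K L + S.card) := by
  classical
  have hind : AlgebraicIndependent (algebraicClosure k K)
      fun p : (a : A) × {j : J a // j ≠ j0 a} => t p.1 p.2.1 / t p.1 (j0 p.1) :=
    hgen.algebraicClosure
  have hSt : ∀ c, ∀ a, ∀ I ∈ Pool.Agent.TH145.GD.St c (d a), ∃ j, P a j = monomial I 1 := by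
    intro c a I hI
    obtain ⟨i, e, he, rfl⟩ := hI
    obtain ⟨j, hj⟩ := hZ c a i e he
    refine ⟨j, ?_⟩
    rw [hj, Pool.Agent.TH145.GD.sM, X_pow_eq_monomial, X_pow_eq_monomial, monomial_mul, one_mul]
  constructor
  · intro L _ _ w x hw htr hx0 hxL hxV hxC hxD
    obtain ⟨c, hc⟩ : ∃ c, x c ≠ 0 := by
      by_contra h
      push Not at h
      exact hx0 (funext h)
    exact Pool.Agent.TH145.GF.log_general V hVh hV P hP t j0 h0 hind c (hSt c) hF C hw (by omega)
      htr x hc hxL hxV hxC hxD
  · intro L _ _ _ x hx hxV hxC hxD S hS
    obtain ⟨i, c, hc, hic⟩ := hx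
    refine ⟨fun δ hδ => canDeg_eq hδ, ?_⟩
    have h1 := Pool.Agent.TH145.GE.curve_lin V hVh hV P hP t j0 h0 hind c (hSt c) hF
      C x hc ⟨i, c, hc, hic⟩ hxV hxC hxD
    have h2 : {Q : Place K L | ∃ a, a ∉ C ∧ d a * pord Q x < Q.ord (aeval x (F a))} ⊆
        (S : Set (Place K L)) := by
      rintro Q ⟨a, ha, h⟩
      exact hS Q a ha h
    have h3 := Set.ncard_le_ncard h2 S.finite_toSet
    rw [Set.ncard_coe_finset] at h3
    exact h1.trans (add_le_add le_rfl (by exact_mod_cast h3))

end Pool.Agent.Results.MP_dc0411_ag.GenericPairs
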