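import Mathlib
import Pool.Agent.TH812.GV5.Cover

/-!
Curves in the complement of very general hypersurface sections of a very general complete
intersection: a uniform degree bound in the boundary case, away from the lines.
-/

set_option autoImplicit false

namespace Pool.Agent.Results.MP_dc0411_ag.VeryGeneralLogPairs

open FF MvPolynomial Pool.Agent.W603.LV Pool.Agent.W603.PV Pool.Agent.W603.CZ

/-- Let `k` be an algebraically closed field of characteristic zero and `F0` a subfield. Let `V` be
defined in the projective space of dimension `n = m + r` by `r` forms `G j` over `F0` of degrees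
`e j`. Let `H a`, `a ∈ α`, be finitely many forms over `k` of degrees `d a` which are very general:
the ratios of the coefficients of each form to one nonzero coefficient of it are algebraically
independent over `F0`, for all forms together. Let `E` be a subset of `α` such that the gradients of
the forms `G j` are linearly independent at all points of `X = V ∩ {H a = 0, a ∈ E}` (so `X` is a
complete intersection of dimension `m - card E`; this holds when `V` is smooth). Let `U` be the
complement in `X` of the hypersurfaces `H b = 0`, `b ∉ E`. Let `X` have dimension at least two, let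
`s = Σ (e j - 1)` and suppose that `s ≤ 1` (so `V` is a linear space or a quadric in a linear space)
or that `X` has dimension at least three. Let `c = Σ_{a ∈ α} d a + card E - 2 m + min 2 s`, let
`c_X = Σ_{a ∈ E} d a + card E - 2 m + min 2 s`, and let `q ≥ 1` be a bound for the degrees of the
equations of `X`, that is, of the `e j` and the `d a` with `a ∈ E`.

Let `L` be a function field of one variable over `k`, of genus `g`, and let `x` be a nonconstant
point of `U` over `L`, of degree `h`: a nonconstant morphism from the smooth projective curve of `L`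
to `X`, whose image is not in the boundary; let `N1` be the number of places over the boundary. Then
`(q c + 1) h ≤ q (2 g - 2 + N1)`, or else `c_X ≤ -2` and the point `x` lies on a line over `L` that
is contained in `X`: there is a point `y ≠ x` over `L` such that all forms `G j` and `H a`, `a ∈ E`,
vanish at `u x + v y` for all `u, v ∈ L`. -/
theorem result {F0 k : Type} [Field F0] [Field k] [Algebra F0 k] [IsAlgClosed k] [CharZero k]
    {n m : ℕ} {ι : Type} [Fintype ι] (hn : n = m + Fintype.card ι)
    (G : ι → MvPolynomial (Fin (n + 1)) F0) (e : ι → ℕ) (hG : ∀ j, (G j).IsHomogeneous (e j))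
    {α : Type} [Fintype α] (H : α → MvPolynomial (Fin (n + 1)) k) (d : α → ℕ)
    (hH : ∀ a, (H a).IsHomogeneous (d a)) (I0 : α → Fin (n + 1) →₀ ℕ)
    (hI0 : ∀ a, (H a).coeff (I0 a) ≠ 0)
    (hgen : AlgebraicIndependent F0 fun p : {p : α × (Fin (n + 1) →₀ ℕ) //
      p.2.degree = d p.1 ∧ p.2 ≠ I0 p.1} => (H p.1.1).coeff p.1.2 / (H p.1.1).coeff (I0 p.1.1))
    (E : Finset α)
    (hsm : ∀ y : Fin (n + 1) → k, y ≠ 0 → (∀ j, aeval y (G j) = 0) →
      (∀ a ∈ E, eval y (H a) = 0) →
      LinearIndependent k fun (j : ι) (l : Fin (n + 1)) => aeval y (pderiv l (G j)))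
    (hdim : E.card + 2 ≤ m)
    (hcase : ∑ j, ((e j - 1 : ℕ) : ℤ) ≤ 1 ∨ E.card + 3 ≤ m)
    {q : ℕ} (hq : 1 ≤ q) (heq : ∀ j, e j ≤ q) (hdq : ∀ a ∈ E, d a ≤ q)
    (L : Type) [Field L] [Algebra k L] [IsFF k L] (x : Fin (n + 1) → L)
    (hnc : ∀ (c : L) (y : Fin (n + 1) → k), x ≠ c • fun l => algebraMap k L (y l))
    (hxG : ∀ j, aeval x (map (algebraMap F0 k) (G j)) = 0)
    (hxE : ∀ a, aeval x (H a) = 0 ↔ a ∈ E) :
    (q * ((∑ a, (d a : ℤ)) + E.card - 2 * m + min 2 (∑ j, ((e j - 1 : ℕ) : ℤ))) + 1) *
      pht k x ≤ q * ((meetsAny (k := k) (fun a : {a // a ∉ E} => H a) (fun a => d a) x).ncard +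
        canDeg k L) ∨
    ((∑ a ∈ E, (d a : ℤ)) + E.card - 2 * m + min 2 (∑ j, ((e j - 1 : ℕ) : ℤ)) < -1 ∧
      ∃ y : Fin (n + 1) → L, (∀ c : L, y ≠ c • x) ∧
        (∀ j, ∀ u v : L, aeval (u • x + v • y) (map (algebraMap F0 k) (G j)) = 0) ∧
        ∀ a ∈ E, ∀ u v : L, aeval (u • x + v • y) (H a) = 0) :=
  Pool.Agent.TH812.GV5.final_line' hn G e hG H d hH I0 hI0 hgen E hsm hdim hcase hq heq hdq L x hnc
    hxG hxE

end Pool.Agent.Results.MP_dc0411_ag.VeryGeneralLogPairs
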